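import Pool.Agent.TH25.AD.A8

/-!
Lamps at the integers and a system of equations which measures the length of a block of lamps:
the solution space at the integer `k` has dimension `(1 - α)² α ^ k`.
-/

set_option autoImplicit false

open scoped InnerProductSpace ENNReal
open Filter Topology

namespace Q23.FV

open Pool.Agent.W656.VA
open Pool.Agent.H80R2
open Pool.Agent.H80R2.BC (L2 GMat vdim IsTr LInv Equi act kerA Coef)
open Pool.Agent.H812R3
open Pool.Agent.TH25.AD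

variable {H : Type} [Group H]

theorem op_row {ι : Type} [Fintype ι] (A : GMat Unit ι H) (x : L2 (ι × H)) :
    op A x = ∑ i, (A () i).sum fun h c => c • U h (cj i x) := by
  rw [← cj_op]
  ext ⟨⟨⟩, g⟩
  rw [cj_apply]

/-- the row `x ↦ x₀ - U f x₀` -/
noncomputable def R1 (f : H) : GMat Unit (Fin 2) H :=
  fun _ => ![Finsupp.single 1 1 - Finsupp.single f 1, 0]

/-- the row `x ↦ U f x₁ - x₁ - x₀` -/
noncomputable def R2 (f : H) : GMat Unit (Fin 2) H :=
  fun _ => ![- Finsupp.single 1 1, Finsupp.single f 1 - Finsupp.single 1 1]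

/-- the row `x ↦ U f x₁` -/
noncomputable def R3 (f : H) : GMat Unit (Fin 2) H := fun _ => ![0, Finsupp.single f 1]

/-- the row `x ↦ x₁` -/
noncomputable def R4 (H : Type) [Group H] : GMat Unit (Fin 2) H := fun _ => ![0, Finsupp.single 1 1]

/-- the row `x ↦ - x₀` -/
noncomputable def R5 (H : Type) [Group H] : GMat Unit (Fin 2) H := fun _ => ![- Finsupp.single 1 1, 0]

theorem sum_sub' (a b : H →₀ ℂ) (y : L2 (Unit × H)) :
    ((a - b).sum fun h c => c • U h y) =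
      (a.sum fun h c => c • U h y) - (b.sum fun h c => c • U h y) :=
  Finsupp.sum_sub_index fun _ _ _ => sub_smul _ _ _

theorem sum_neg' (a : H →₀ ℂ) (y : L2 (Unit × H)) :
    ((-a).sum fun h c => c • U h y) = - (a.sum fun h c => c • U h y) := by
  have := sum_sub' 0 a y
  rwa [zero_sub, Finsupp.sum_zero_index, zero_sub] at this

theorem sum_one' (h : H) (y : L2 (Unit × H)) :
    ((Finsupp.single h (1 : ℂ)).sum fun h c => c • U h y) = U h y := by
  rw [Finsupp.sum_single_index (by rw [zero_smul]), one_smul]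

theorem op_R1 (f : H) (x : L2 (Fin 2 × H)) : op (R1 f) x = cj 0 x - U f (cj 0 x) := by
  rw [op_row, Fin.sum_univ_two]
  simp only [R1, Matrix.cons_val_zero, Matrix.cons_val_one]
  rw [sum_sub', sum_one', sum_one', U_one, Finsupp.sum_zero_index, add_zero]

theorem op_R2 (f : H) (x : L2 (Fin 2 × H)) :
    op (R2 f) x = U f (cj 1 x) - cj 1 x - cj 0 x := by
  rw [op_row, Fin.sum_univ_two]
  simp only [R2, Matrix.cons_val_zero, Matrix.cons_val_one]
  rw [sum_neg', sum_sub', sum_one', sum_one', sum_one', U_one, U_one]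
  abel

theorem op_R3 (f : H) (x : L2 (Fin 2 × H)) : op (R3 f) x = U f (cj 1 x) := by
  rw [op_row, Fin.sum_univ_two]
  simp only [R3, Matrix.cons_val_zero, Matrix.cons_val_one]
  rw [sum_one', Finsupp.sum_zero_index, zero_add]

theorem op_R4 (x : L2 (Fin 2 × H)) : op (R4 H) x = cj 1 x := by
  rw [op_row, Fin.sum_univ_two]
  simp only [R4, Matrix.cons_val_zero, Matrix.cons_val_one]
  rw [sum_one', Finsupp.sum_zero_index, zero_add, U_one]

theorem op_R5 (x : L2 (Fin 2 × H)) : op (R5 H) x = - cj 0 x := by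
  rw [op_row, Fin.sum_univ_two]
  simp only [R5, Matrix.cons_val_zero, Matrix.cons_val_one]
  rw [sum_neg', sum_one', Finsupp.sum_zero_index, add_zero, U_one]

variable (M : Mach H)

/-- the solution space at `z`: `x₀` is constant along blocks, `x₁` starts with `0` and grows by `x₀`
in each step, and is `z x₀` at the end of the block -/
noncomputable def Sl (z : ℂ) : Submodule ℂ (L2 (Fin 2 × H)) :=
  ((M.Pᗮ).comap (op (R1 M.f) : L2 (Fin 2 × H) →ₗ[ℂ] L2 (Unit × H)) ⊓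
    (M.Pᗮ).comap (op (R2 M.f) : L2 (Fin 2 × H) →ₗ[ℂ] L2 (Unit × H))) ⊓
  ((M.P).comap (op (R3 M.f) : L2 (Fin 2 × H) →ₗ[ℂ] L2 (Unit × H)) ⊓
    (M.P).comap ((op (R4 H) + z • op (R5 H) : L2 (Fin 2 × H) →L[ℂ] L2 (Unit × H)) :
      L2 (Fin 2 × H) →ₗ[ℂ] L2 (Unit × H)))

theorem mem_Sl (z : ℂ) (x : L2 (Fin 2 × H)) : x ∈ Sl M z ↔
    (cj 0 x - U M.f (cj 0 x) ∈ M.Pᗮ ∧ U M.f (cj 1 x) - cj 1 x - cj 0 x ∈ M.Pᗮ) ∧
      U M.f (cj 1 x) ∈ M.P ∧ cj 1 x - z • cj 0 x ∈ M.P := by
  unfold Sl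
  simp only [Submodule.mem_inf, Submodule.mem_comap, ContinuousLinearMap.coe_coe,
    add_apply, smul_apply, op_R1, op_R2, op_R3, op_R4,
    op_R5, smul_neg, ← sub_eq_add_neg]

theorem closed_Sl (z : ℂ) : IsClosed (Sl M z : Set (L2 (Fin 2 × H))) := by
  unfold Sl
  refine isClosed_inf (isClosed_inf ?_ ?_) (isClosed_inf ?_ ?_)
  · exact (isClosed_orth M.P).preimage (op (R1 M.f)).continuous
  · exact (isClosed_orth M.P).preimage (op (R2 M.f)).continuous
  · exact M.closed.preimage (op (R3 M.f)).continuous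
  · exact M.closed.preimage (op (R4 H) + z • op (R5 H)).continuous

theorem linv_Sl (z : ℂ) : LInv (Sl M z) := by
  apply linv_of
  intro g x hx
  rw [mem_Sl] at hx ⊢
  obtain ⟨⟨h1, h2⟩, h3, h4⟩ := hx
  have hs : ∀ y : L2 (Unit × H), Pool.Agent.W656.VA.lt Unit g (z • y)
      = z • Pool.Agent.W656.VA.lt Unit g y := fun y => map_smul _ _ _
  simp only [equi_lt (equi_cj _), equi_lt (equi_U _), ← map_sub, ← hs]
  exact ⟨⟨linv_lt (linv_orth M.linv_P) g h1, linv_lt (linv_orth M.linv_P) g h2⟩,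
    linv_lt M.linv_P g h3, linv_lt M.linv_P g h4⟩

/-- the value at the left end of the block -/
noncomputable def TT : L2 (Fin 2 × H) →L[ℂ] L2 (Unit × H) :=
  ((M.lam (-1))ᗮ.starProjection).comp (cj 0)

theorem TT_apply (x : L2 (Fin 2 × H)) :
    TT M x = (M.lam (-1))ᗮ.starProjection (cj 0 x) := rfl

theorem equi_TT : Equi (TT M) :=
  equi_comp (equi_proj (linv_orth (M.loc_lam (-1)).linv)) (equi_cj 0)

theorem TT_mem (x : L2 (Fin 2 × H)) : TT M x ∈ (M.lam (-1))ᗮ :=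
  Submodule.starProjection_apply_mem _ _

theorem inner_TT {u : L2 (Unit × H)} (hu : u ∈ (M.lam (-1))ᗮ) (x : L2 (Fin 2 × H)) :
    ⟪u, TT M x⟫_ℂ = ⟪u, cj 0 x⟫_ℂ := by
  rw [TT_apply, ← Submodule.inner_starProjection_left_eq_right,
    Submodule.starProjection_eq_self_iff.2 hu]

theorem TT_inj (hα : M.α < 1) {z : ℂ} (x : L2 (Fin 2 × H)) (hx : x ∈ Sl M z) (h : TT M x = 0) :
    x = 0 := by
  obtain ⟨⟨h1, h2⟩, h3, h4⟩ := (mem_Sl M z x).1 hx
  have c0 : cj 0 x = 0 := by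
    refine M.Z_left hα ((M.mem_Z _).2 h1) ?_
    rw [TT_apply, Submodule.starProjection_apply_eq_zero_iff,
      Submodule.orthogonal_orthogonal] at h
    exact h
  have c1 : cj 1 x = 0 := by
    refine M.Z_left hα ((M.mem_Z _).2 ?_) (M.mem_lam_neg_one h3)
    rw [c0, sub_zero] at h2
    rw [← neg_sub]
    exact Submodule.neg_mem _ h2
  apply ext_cj
  intro i
  rw [map_zero]
  fin_cases i
  · exact c0
  · exact c1

/-- the growth of the second component along a block -/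
theorem grow {x : L2 (Fin 2 × H)} {z : ℂ} (hx : x ∈ Sl M z) {n : ℕ} {w : L2 (Unit × H)}
    (hw : w ∈ M.Q n) (j : ℕ) (hj : j ≤ n) :
    ⟪w, U (M.f ^ (j : ℤ)) (cj 1 x)⟫_ℂ = ⟪w, cj 1 x⟫_ℂ + (j : ℂ) * ⟪w, cj 0 x⟫_ℂ := by
  obtain ⟨⟨h1, h2⟩, h3, h4⟩ := (mem_Sl M z x).1 hx
  induction j with
  | zero => simp [U_one]
  | succ j ih =>
    have h5 := M.steps_up ((M.mem_Z _).2 h1) j (fun i hi => M.Q_on hw (by omega))
    rw [← M.lam_zero] at h2
    have h6 := M.mem_orth_shift (m := (j : ℤ)) h2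
    rw [add_zero] at h6
    have h7 : ⟪w, U (M.f ^ (j : ℤ)) (U M.f (cj 1 x) - cj 1 x - cj 0 x)⟫_ℂ = 0 :=
      Submodule.inner_right_of_mem_orthogonal (M.Q_on hw (by omega)) h6
    rw [map_sub, map_sub, inner_sub_right, inner_sub_right, ih (by omega), ← h5, ← U_mul,
      ← zpow_add_one] at h7
    push_cast
    linear_combination h7

/-- blocks of a wrong length do not contribute -/
theorem bad {x : L2 (Fin 2 × H)} {z : ℂ} (hx : x ∈ Sl M z) {n : ℕ} (hn : (n : ℂ) ≠ z)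
    {w : L2 (Unit × H)} (hw : w ∈ M.Q n) : ⟪w, cj 0 x⟫_ℂ = 0 := by
  have h0 := grow M hx hw n le_rfl
  obtain ⟨⟨h1, h2⟩, h3, h4⟩ := (mem_Sl M z x).1 hx
  have h5 := M.steps_up ((M.mem_Z _).2 h1) n (fun i hi => M.Q_on hw hi)
  have h6 : ⟪w, cj 1 x⟫_ℂ = 0 :=
    Submodule.inner_left_of_mem_orthogonal (M.mem_lam_neg_one h3) (M.Q_left hw)
  rw [← M.lam_zero] at h4
  have h7 := M.mem_lam_shift (m := (n : ℤ)) h4
  rw [add_zero] at h7
  have h8 : ⟪w, U (M.f ^ (n : ℤ)) (cj 1 x - z • cj 0 x)⟫_ℂ = 0 :=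
    Submodule.inner_left_of_mem_orthogonal h7 (M.Q_right hw)
  rw [map_sub, map_smul, inner_sub_right, inner_smul_right, h0, h6, ← h5, zero_add] at h8
  have h9 : ((n : ℂ) - z) * ⟪w, cj 0 x⟫_ℂ = 0 := by linear_combination h8
  exact (mul_eq_zero.1 h9).resolve_left (sub_ne_zero.2 hn)

/-- the linear block function -/
noncomputable def ub (n : ℕ) (x : L2 (Unit × H)) : L2 (Unit × H) :=
  ∑ j ∈ Finset.range (n + 1), (j : ℂ) • U (M.f ^ (-(j : ℤ))) x

theorem ub_step {n : ℕ} {x : L2 (Unit × H)} (hx : x ∈ M.Q n) :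
    U M.f (ub M n x) - ub M n x - M.blk n x ∈ M.Pᗮ := by
  have e : U M.f (ub M n x) - ub M n x - M.blk n x
      = - (((n : ℂ) + 1) • U (M.f ^ (-(n : ℤ))) x) := by
    unfold ub Mach.blk
    rw [map_sum, ← Finset.sum_sub_distrib, ← Finset.sum_sub_distrib]
    have h1 := Finset.sum_range_sub (fun j : ℕ => (j : ℂ) • U (M.f ^ (1 - (j : ℤ))) x) (n + 1)
    have h2 : ∀ j ∈ Finset.range (n + 1),
        U M.f ((j : ℂ) • U (M.f ^ (-(j : ℤ))) x) - (j : ℂ) • U (M.f ^ (-(j : ℤ))) x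
          - U (M.f ^ (-(j : ℤ))) x =
        - ((((j + 1 : ℕ) : ℂ) • U (M.f ^ (1 - ((j + 1 : ℕ) : ℤ))) x)
          - (j : ℂ) • U (M.f ^ (1 - (j : ℤ))) x) := by
      intro j _
      have e1 : (1 - ((j + 1 : ℕ) : ℤ)) = -(j : ℤ) := by push_cast; ring
      have e2 : U M.f (U (M.f ^ (-(j : ℤ))) x) = U (M.f ^ (1 - (j : ℤ))) x := by
        rw [← U_mul]
        congr 2
        rw [← zpow_one_add]
        congr 1
      rw [e1, map_smul, e2]
      push_cast
      rw [add_smul, one_smul]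
      abel
    rw [Finset.sum_congr rfl h2, Finset.sum_neg_distrib, h1]
    have e3 : (1 - ((n + 1 : ℕ) : ℤ)) = -(n : ℤ) := by push_cast; ring
    rw [e3]
    simp
  rw [e]
  apply Submodule.neg_mem
  apply Submodule.smul_mem
  have := M.mem_orth_shift (m := -(n : ℤ)) (M.Q_right hx)
  rwa [neg_add_cancel, M.lam_zero] at this

theorem ub_left {n : ℕ} {x : L2 (Unit × H)} (hx : x ∈ M.Q n) : U M.f (ub M n x) ∈ M.P := by
  apply M.lam_neg_one_P
  unfold ub
  rw [Finset.sum_range_succ', Nat.cast_zero, zero_smul, add_zero]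
  apply Submodule.sum_mem
  intro j hj
  apply Submodule.smul_mem
  have := M.mem_lam_shift (m := -((j + 1 : ℕ) : ℤ)) (M.Q_on hx (Finset.mem_range.1 hj))
  have e1 : -((j + 1 : ℕ) : ℤ) + (j : ℤ) = -1 := by push_cast; ring
  rwa [e1] at this

theorem ub_right {n : ℕ} {x : L2 (Unit × H)} (hx : x ∈ M.Q n) :
    ub M n x - (n : ℂ) • M.blk n x ∈ M.P := by
  unfold ub Mach.blk
  rw [Finset.smul_sum, ← Finset.sum_sub_distrib]
  apply Submodule.sum_mem
  intro j hj
  have hj' : j ≤ n := by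
    have := Finset.mem_range.1 hj
    omega
  rcases Nat.lt_or_eq_of_le hj' with hlt | rfl
  · rw [← sub_smul]
    apply Submodule.smul_mem
    rw [← M.lam_zero]
    have := M.mem_lam_shift (m := -(j : ℤ)) (M.Q_on hx hlt)
    rwa [neg_add_cancel] at this
  · rw [sub_self]
    exact M.P.zero_mem

theorem good {n : ℕ} {x : L2 (Unit × H)} (hx : x ∈ M.Q n) :
    ∃ y ∈ Sl M (n : ℂ), TT M y = x := by
  refine ⟨Pool.Agent.TH25.AD.mk (ι := Fin 2) ![M.blk n x, ub M n x], ?_, ?_⟩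
  · rw [mem_Sl]
    simp only [cj_mk, Matrix.cons_val_zero, Matrix.cons_val_one]
    exact ⟨⟨(M.mem_Z _).1 (M.blk_mem_Z hx), ub_step M hx⟩, ub_left M hx, ub_right M hx⟩
  · rw [TT_apply, cj_mk]
    symm
    apply Eq.symm
    apply Submodule.eq_starProjection_of_mem_orthogonal (M.Q_left hx)
    rw [Submodule.orthogonal_orthogonal]
    exact M.blk_sub hx

/-- **The dimension of the solution space.** -/
theorem vdim_Sl (hα : M.α < 1) (k : ℕ) :
    vdim (Sl M (k : ℂ)) = (1 - M.α) ^ 2 * M.α ^ k := by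
  set L := ((Sl M (k : ℂ)).map
    (TT M : L2 (Fin 2 × H) →ₗ[ℂ] L2 (Unit × H))).topologicalClosure with hL
  have hLc : IsClosed (L : Set (L2 (Unit × H))) := Submodule.isClosed_topologicalClosure _
  have hv : vdim (Sl M (k : ℂ)) = vdim L := by
    rw [vdim_rank (closed_Sl M _) (linv_Sl M _) (TT M) (equi_TT M)]
    have h3 : Sl M (k : ℂ) ⊓ kr (TT M) = ⊥ := by
      rw [eq_bot_iff]
      rintro x ⟨hx, hx2⟩
      exact TT_inj M hα x hx ((mem_kr _ _).1 hx2)
    rw [h3, vdim_bot, zero_add]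
  have hlo : M.Q k ≤ L := by
    intro x hx
    obtain ⟨y, hy, rfl⟩ := good M hx
    exact Submodule.le_topologicalClosure _ ⟨y, hy, rfl⟩
  have hup : ∀ n, n ≠ k → M.Q n ≤ Lᗮ := by
    intro n hn u hu
    rw [hL, Submodule.orthogonal_closure, Submodule.mem_orthogonal']
    rintro _ ⟨y, hy, rfl⟩
    show ⟪u, TT M y⟫_ℂ = 0
    rw [inner_TT M (M.Q_left hu)]
    exact bad M hy (by exact_mod_cast hn) hu
  have hLl : L ≤ (M.lam (-1))ᗮ := by
    apply Submodule.topologicalClosure_minimal _ _ (isClosed_orth _)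
    rintro _ ⟨y, _, rfl⟩
    exact TT_mem M y
  have hQl : ∀ n, M.Q n ≤ (M.lam (-1))ᗮ := fun n u hu => M.Q_left hu
  have b2 : ∀ N : ℕ, ∑ n ∈ (Finset.range N).erase k, vdim (M.Q n) ≤ (1 - M.α) - vdim L := by
    intro N
    have h4 : vdim ((M.lam (-1))ᗮ ⊓ Lᗮ) = (1 - M.α) - vdim L := by
      rw [vdim_diff hLc (isClosed_orth _) hLl, vdim_orth, M.vdim_lam]
      simp
    rw [← h4]
    refine bessel _ _ (fun n _ => M.closed_Q n) (fun i _ j _ hij => M.Q_orth hij) _
      (isClosed_inf (isClosed_orth _) (isClosed_orth _)) ?_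
    intro n hn
    exact le_inf (hQl n) (hup n (Finset.mem_erase.1 hn).1)
  have b3 : ∀ N : ℕ, ∑ n ∈ Finset.range N, vdim (M.Q n) = (1 - M.α) * (1 - M.α ^ N) := by
    intro N
    induction N with
    | zero => simp
    | succ N ih =>
      rw [Finset.sum_range_succ, ih, M.vdim_Q, pow_succ]
      ring
  rw [hv, ← M.vdim_Q k]
  apply le_antisymm
  · have hlim : Tendsto (fun N : ℕ => vdim (M.Q k) + (1 - M.α) * M.α ^ N) atTop
        (𝓝 (vdim (M.Q k))) := by
      have := (tendsto_pow_atTop_nhds_zero_of_lt_one M.α_nonneg hα).const_mul (1 - M.α)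
      rw [mul_zero] at this
      have := (tendsto_const_nhds (x := vdim (M.Q k))).add this
      rwa [add_zero] at this
    refine ge_of_tendsto hlim ?_
    filter_upwards [eventually_gt_atTop k] with N hN
    have h5 := Finset.add_sum_erase (Finset.range N) (fun n => vdim (M.Q n))
      (Finset.mem_range.2 hN)
    rw [b3] at h5
    have h6 := b2 N
    nlinarith
  · exact vdim_mono hlo

end Q23.FV
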