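import Pool.Agent.Q23.FV.M1
import Pool.Agent.W656.VB6

/-!
The solution spaces are defined by a linear pencil of matrices over the coefficient ring.
-/

set_option autoImplicit false

open scoped InnerProductSpace ENNReal ComplexConjugate
open Filter Topology

namespace Q23.FV

open Pool.Agent.W656.VA
open Pool.Agent.H80R2
open Pool.Agent.H80R2.BC (L2 GMat vdim IsTr LInv Equi act kerA Coef)
open Pool.Agent.H812R3
open Pool.Agent.TH25.AD

section

variable {H ι κ : Type} [Group H] [Fintype ι] [Fintype κ]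

theorem op_pen (P0 P1 : GMat κ ι H) (z : ℂ) (x : L2 (ι × H)) :
    op (BC.pen P0 P1 z) x = op P0 x + z • op P1 x := by
  ext ⟨k, g⟩
  rw [lp.coeFn_add, Pi.add_apply, lp.coeFn_smul, Pi.smul_apply, op_apply, op_apply, op_apply,
    act_pen, smul_eq_mul]

/-- `E z` is defined by a pencil over `R`, with defect `d` -/
def DfnP (R : Subring ℂ) (E : ℂ → Submodule ℂ (L2 (ι × H))) (d : ℝ) : Prop :=
  ∃ (κ ν : Type) (_ : Fintype κ) (_ : Fintype ν) (B0 B1 : GMat κ ι H) (C : GMat κ ν H),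
    Coef R B0 ∧ Coef R B1 ∧ Coef R C ∧ vdim (kerA C) = d ∧
    ∀ z x, x ∈ E z ↔ op (BC.pen B0 B1 z) x ∈ clo (op C)

theorem DfnP.of {κ' : Type} [Fintype κ'] {R : Subring ℂ} {E : Submodule ℂ (L2 (κ' × H))} {d : ℝ}
    (h : Dfn R E d) {X0 X1 : GMat κ' ι H} (h0 : Coef R X0) (h1 : Coef R X1) :
    DfnP R (fun z => E.comap ((op X0 + z • op X1 : L2 (ι × H) →L[ℂ] L2 (κ' × H)) :
      L2 (ι × H) →ₗ[ℂ] L2 (κ' × H))) d := by
  obtain ⟨κ, ν, _, _, B, C, hB, hC, rfl, hE⟩ := h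
  refine ⟨κ, ν, inferInstance, inferInstance, mulM B X0, mulM B X1, C, coef_mulM hB h0,
    coef_mulM hB h1, hC, rfl, ?_⟩
  intro z x
  rw [op_pen, op_mulM, op_mulM, ← map_smul, ← map_add]
  exact hE _

theorem DfnP.const {κ' : Type} [Fintype κ'] {R : Subring ℂ} {E : Submodule ℂ (L2 (κ' × H))}
    {d : ℝ} (h : Dfn R E d) {X : GMat κ' ι H} (hX : Coef R X) :
    DfnP R (fun _ => E.comap (op X : L2 (ι × H) →ₗ[ℂ] L2 (κ' × H))) d := by
  obtain ⟨κ, ν, _, _, B, C, hB, hC, rfl, hE⟩ := h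
  refine ⟨κ, ν, inferInstance, inferInstance, mulM B X, fun _ _ => 0, C, coef_mulM hB hX,
    fun _ _ _ => R.zero_mem, hC, rfl, ?_⟩
  intro z x
  rw [op_pen, op_mulM, op_zero, smul_zero, add_zero]
  exact hE _

theorem DfnP.inf {R : Subring ℂ} {E E' : ℂ → Submodule ℂ (L2 (ι × H))} {d d' : ℝ}
    (h : DfnP R E d) (h' : DfnP R E' d') : DfnP R (fun z => E z ⊓ E' z) (d + d') := by
  obtain ⟨κ, ν, _, _, B0, B1, C, hB0, hB1, hC, rfl, hE⟩ := h
  obtain ⟨κ', ν', _, _, B0', B1', C', hB0', hB1', hC', rfl, hE'⟩ := h'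
  refine ⟨κ ⊕ κ', ν ⊕ ν', inferInstance, inferInstance, BC.stack B0 B0', BC.stack B1 B1',
    bd C C', coef_stack hB0 hB0', coef_stack hB1 hB1', coef_bd hC hC', vdim_bd C C', ?_⟩
  intro z x
  have e : BC.pen (BC.stack B0 B0') (BC.stack B1 B1') z
      = BC.stack (BC.pen B0 B1 z) (BC.pen B0' B1' z) := by
    funext k
    cases k <;> rfl
  rw [Submodule.mem_inf, hE, hE', e, mem_clo_bd, pl1_stack, pl2_stack]

/-- the dimensions along a pencil -/
theorem DfnP.pencil {R : Subring ℂ} {E : ℂ → Submodule ℂ (L2 (ι × H))} {d : ℝ}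
    (h : DfnP R E d) : ∃ (κ μ : Type) (_ : Fintype κ) (_ : Fintype μ) (P0 P1 : GMat κ μ H),
      Coef R P0 ∧ Coef R P1 ∧ ∀ z, vdim (kerA (BC.pen P0 P1 z)) = vdim (E z) + d := by
  obtain ⟨κ, ν, _, _, B0, B1, C, hB0, hB1, hC, rfl, hE⟩ := h
  refine ⟨κ, ι ⊕ ν, inferInstance, inferInstance, sd B0 C, sd B1 (fun _ _ => 0),
    coef_sd hB0 hC, coef_sd hB1 (fun _ _ _ => R.zero_mem), ?_⟩
  intro z
  have e : BC.pen (sd B0 C) (sd B1 (fun _ _ => 0)) z = sd (BC.pen B0 B1 z) C := by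
    funext k i
    rcases i with i | i
    · rfl
    · show - C k i + z • (- (0 : H →₀ ℂ)) = - C k i
      rw [neg_zero, smul_zero, add_zero]
  have e2 : E z = pre (BC.pen B0 B1 z) C := by
    ext x
    rw [hE, mem_pre]
  rw [e, vdim_sd, e2]

end

section

variable {H : Type} [Group H]

theorem coef_vec {R : Subring ℂ} {a b : H →₀ ℂ} (ha : ∀ h, a h ∈ R) (hb : ∀ h, b h ∈ R) :
    Coef R (fun _ => ![a, b] : GMat Unit (Fin 2) H) := by
  intro k i h
  fin_cases i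
  · exact ha h
  · exact hb h

theorem mem_one {R : Subring ℂ} (k h : H) : (Finsupp.single k (1 : ℂ)) h ∈ R :=
  coef_single _ _ R.one_mem _

theorem coef_R1 {R : Subring ℂ} (f : H) : Coef R (R1 f) :=
  coef_vec (fun h => R.sub_mem (mem_one 1 h) (mem_one f h)) (fun _ => R.zero_mem)

theorem coef_R2 {R : Subring ℂ} (f : H) : Coef R (R2 f) :=
  coef_vec (fun h => R.neg_mem (mem_one 1 h)) (fun h => R.sub_mem (mem_one f h) (mem_one 1 h))

theorem coef_R3 {R : Subring ℂ} (f : H) : Coef R (R3 f) :=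
  coef_vec (fun _ => R.zero_mem) (fun h => mem_one f h)

theorem coef_R4 {R : Subring ℂ} : Coef R (R4 H) :=
  coef_vec (fun _ => R.zero_mem) (fun h => mem_one 1 h)

theorem coef_R5 {R : Subring ℂ} : Coef R (R5 H) :=
  coef_vec (fun h => R.neg_mem (mem_one 1 h)) (fun _ => R.zero_mem)

theorem dfn_Sl (M : Mach H) {R : Subring ℂ} {d : ℝ} (hP : Dfn R M.P 0) (hN : Dfn R M.Pᗮ d) :
    DfnP R (fun z => Sl M z) (2 * d) := by
  have h := ((DfnP.const hN (coef_R1 M.f)).inf (DfnP.const hN (coef_R2 M.f))).inf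
    ((DfnP.const hP (coef_R3 M.f)).inf (DfnP.of hP (coef_R4 (H := H)) coef_R5))
  have e1 : d + d + (0 + 0) = 2 * d := by ring
  rw [e1] at h
  exact h

end

/-- **A pencil of matrices which measures the length of the blocks.** -/
theorem pencil_exists {R : Subring ℂ} (hR : ∀ c ∈ R, conj c ∈ R) {G : Type} [Group G]
    {ι κ : Type} [Fintype ι] [Fintype κ] (A : GMat κ ι G) (T : GMat Unit ι G) (hA : Coef R A)
    (hT : Coef R T) (h : kerA A ⊓ kerA T = ⊥) (h1 : vdim (kerA A) < 1) :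
    ∃ (κ' μ : Type) (_ : Fintype κ') (_ : Fintype μ) (P0 P1 : GMat κ' μ (Hg G)) (c : ℝ),
      Coef R P0 ∧ Coef R P1 ∧ ∀ k : ℕ, vdim (kerA (BC.pen P0 P1 (k : ℂ))) =
        c + (1 - vdim (kerA A)) ^ 2 * vdim (kerA A) ^ k := by
  set A2 := BC.push (inc G) A with hA2
  set T2 := BC.push (inc G) T with hT2
  have hv : vdim (kerA A2) = vdim (kerA A) := vdim_push (inc G) inc_inj A
  have hbot : kerA A2 ⊓ kerA T2 = ⊥ := by
    rw [hA2, hT2, ← kerA_stack, ← push_stack]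
    apply eq_bot_of_vdim (isClosed_kerA _) (linv_kerA _)
    rw [vdim_push (inc G) inc_inj, kerA_stack, h, vdim_bot]
  have hsupp : ∀ (a : G →₀ ℂ), ∀ x ∈ (a.mapDomain (inc G)).support, x ∈ DIg G {0} := by
    classical
    intro a x hx
    have := Finsupp.mapDomain_support hx
    rw [Finset.mem_image] at this
    obtain ⟨y, _, rfl⟩ := this
    exact inc_mem y
  have hloc : Loc (DIg G {0}) (lampP A2 T2) :=
    loc_lampP _ (fun k i x hx => hsupp _ x hx) (fun k i x hx => hsupp _ x hx)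
  set M := mach G ∅ (lampP A2 T2) (closed_lampP A2 T2) hloc with hM
  have hα : M.α = vdim (kerA A) := by
    rw [← hv]
    exact vdim_lampP A2 T2 hbot
  have hc1 := coef_push (inc G) A hA
  have hc2 := coef_push (inc G) T hT
  have d1 : Dfn R M.P 0 := dfn_lampP hc1 hc2 hbot
  have d2 : Dfn R M.Pᗮ (Fintype.card κ - Fintype.card ι + vdim (kerA A2)) :=
    dfn_lampP_orth hR hc1 hc2
  obtain ⟨κ', μ, _, _, P0, P1, c0, c1, hP⟩ := (dfn_Sl M d1 d2).pencil
  refine ⟨κ', μ, inferInstance, inferInstance, P0, P1,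
    2 * ((Fintype.card κ : ℝ) - Fintype.card ι + vdim (kerA A2)), c0, c1, fun k => ?_⟩
  rw [hP, vdim_Sl M (by rw [hα]; exact h1), hα, add_comm]

end Q23.FV
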