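import Pool.Agent.Q23.FV.M2
import Pool.Agent.W649.ZL.Mat

/-!
From a value which is not an integer to a pencil of integral matrices with infinitely many kernel
dimensions; the ascending chain condition.
-/

set_option autoImplicit false

open scoped InnerProductSpace ENNReal ComplexConjugate
open Filter Topology

namespace Q23.FV

open Pool.Agent.W656.VA
open Pool.Agent.H80R2
open Pool.Agent.H80R2.BC (L2 GMat vdim IsTr LInv Equi act kerA Coef)
open Pool.Agent.H812R3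
open Pool.Agent.TH25.AD

universe u

/-- complex coefficients -/
noncomputable def cx {G : Type u} {m n : ℕ} (A : Matrix (Fin m) (Fin n) (G →₀ ℤ)) :
    Matrix (Fin m) (Fin n) (G →₀ ℂ) :=
  fun i j => (A i j).mapRange (fun c : ℤ => (c : ℂ)) Int.cast_zero

/-- integral part of the coefficients -/
noncomputable def zx {X : Type} (a : X →₀ ℂ) : X →₀ ℤ :=
  a.mapRange (fun c : ℂ => ⌊c.re⌋) (by simp)

theorem zx_cast {X : Type} (a : X →₀ ℂ) (h : ∀ x, a x ∈ (⊥ : Subring ℂ)) (x : X) :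
    ((zx a x : ℤ) : ℂ) = a x := by
  obtain ⟨k, hk⟩ := Subring.mem_bot.1 (h x)
  unfold zx
  rw [Finsupp.mapRange_apply, ← hk]
  simp

theorem mapDomain_inv_inv {H : Type} [Group H] (a : H →₀ ℂ) :
    (a.mapDomain (fun g : H => g⁻¹)).mapDomain (fun g : H => g⁻¹) = a := by
  rw [← Finsupp.mapDomain_comp]
  have : ((fun g : H => g⁻¹) ∘ fun g : H => g⁻¹) = id := by
    funext g
    simp
  rw [this, Finsupp.mapDomain_id]

/-- a pencil over the integers in the format of the problem -/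
theorem to_matrix {H : Type} [Group H] {κ μ : Type} [Fintype κ] [Fintype μ] (P0 P1 : GMat κ μ H)
    (h0 : Coef (⊥ : Subring ℂ) P0) (h1 : Coef (⊥ : Subring ℂ) P1) :
    ∃ (m n : ℕ) (A B : Matrix (Fin m) (Fin n) (H →₀ ℤ)), ∀ k : ℕ,
      kerDim (cx (A + k • B)) = vdim (kerA (BC.pen P0 P1 (k : ℂ))) := by
  classical
  let e : Fin (Fintype.card κ) ≃ κ := (Fintype.equivFin κ).symm
  let f : Fin (Fintype.card μ) ≃ μ := (Fintype.equivFin μ).symm
  refine ⟨Fintype.card μ, Fintype.card κ,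
    fun i j => zx ((P0 (e j) (f i)).mapDomain (fun g => g⁻¹)),
    fun i j => zx ((P1 (e j) (f i)).mapDomain (fun g => g⁻¹)), fun k => ?_⟩
  rw [kerDim_eq, ← vdim_ri e f]
  congr 2
  funext j i
  show (Finsupp.mapRange (fun c : ℤ => (c : ℂ)) Int.cast_zero
    (zx ((P0 (e j) (f i)).mapDomain (fun g => g⁻¹)) +
      k • zx ((P1 (e j) (f i)).mapDomain (fun g => g⁻¹)))).mapDomain (fun g => g⁻¹)
      = P0 (e j) (f i) + (k : ℂ) • P1 (e j) (f i)
  have e1 : Finsupp.mapRange (fun c : ℤ => (c : ℂ)) Int.cast_zero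
    (zx ((P0 (e j) (f i)).mapDomain (fun g => g⁻¹)) +
      k • zx ((P1 (e j) (f i)).mapDomain (fun g => g⁻¹)))
      = (P0 (e j) (f i) + (k : ℂ) • P1 (e j) (f i)).mapDomain (fun g => g⁻¹) := by
    ext x
    rw [Finsupp.mapRange_apply, Finsupp.add_apply, Finsupp.smul_apply, Finsupp.mapDomain_add,
      Finsupp.mapDomain_smul, Finsupp.add_apply, Finsupp.smul_apply]
    rw [nsmul_eq_mul]
    push_cast
    rw [zx_cast _ (fun y => coef_mapDomain _ _ (h0 _ _) y),
      zx_cast _ (fun y => coef_mapDomain _ _ (h1 _ _) y), smul_eq_mul]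
  rw [e1, mapDomain_inv_inv]

/-- closure properties without a condition on torsion -/
structure Cl (C : (G : Type) → [Group G] → Prop) : Prop where
  sub : ∀ (G H : Type) [Group G] [Group H] (f : G →* H), Function.Injective f → C H → C G
  pi : ∀ (I : Type) (G : I → Type) [∀ i, Group (G i)], (∀ i, C (G i)) → C (∀ i, G i)
  sd : ∀ (G : Type) [Group G] (s : MulAut G), C G →
    C (G ⋊[zpowersHom (MulAut G) s] Multiplicative ℤ)
  free : ∀ (G : Type) [Group G] (m : ℕ), C G → C (Monoid.Coprod G (FreeGroup (Fin m)))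

namespace Cl

variable {C : (G : Type) → [Group G] → Prop}

theorem prod (hC : Cl C) (G H : Type) [Group G] [Group H] (hG : C G) (hH : C H) :
    C (G × H) := by
  have h1 : C (∀ b, BF G H b) := hC.pi Bool (BF G H) (fun b => by
    cases b
    · exact hH
    · exact hG)
  refine hC.sub (G × H) (∀ b, BF G H b)
    { toFun := BF.mk
      map_one' := ?_
      map_mul' := ?_ } ?_ h1
  · funext b
    cases b <;> rfl
  · intro x y
    funext b
    cases b <;> rfl
  · intro x y h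
    have e1 := congrFun h true
    have e2 := congrFun h false
    exact Prod.ext e1 e2

theorem int (hC : Cl C) {G : Type} [Group G] (hG : C G) : C (Multiplicative ℤ) := by
  have h1 := hC.sd G 1 hG
  exact hC.sub _ _ SemidirectProduct.inr SemidirectProduct.inr_injective h1

theorem wr (hC : Cl C) {L : Type} [Group L] (hL : C L) : C (Wr L) := by
  have h1 : C (ℤ → L) := hC.pi ℤ (fun _ => L) (fun _ => hL)
  have h2 := hC.sd (ℤ → L) (shAut L) h1
  refine hC.sub _ _
    { toFun := fun a : Wr L => (⟨a.k, Multiplicative.ofAdd a.n⟩ :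
        (ℤ → L) ⋊[zpowersHom (MulAut (ℤ → L)) (shAut L)] Multiplicative ℤ)
      map_one' := ?_
      map_mul' := ?_ } ?_ h2
  · rfl
  · intro a b
    apply SemidirectProduct.ext
    · funext i
      rw [SemidirectProduct.mul_left]
      show a.k i * b.k (i - a.n) = (a.k * (zpowersHom (MulAut (ℤ → L)) (shAut L)
        (Multiplicative.ofAdd a.n)) b.k) i
      rw [Pi.mul_apply, zpowersHom_apply, toAdd_ofAdd, shAut_zpow]
    · rfl
  · intro a b h
    have e1 := congrArg SemidirectProduct.left h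
    have e2 := congrArg SemidirectProduct.right h
    exact Wr.ext e1 (Multiplicative.ofAdd.injective e2)

theorem hg (hC : Cl C) {G : Type} [Group G] (hG : C G) : C (Hg G) :=
  hC.wr (hC.prod G _ hG (hC.wr (hC.int hG)))

end Cl

theorem conj_bot : ∀ c ∈ (⊥ : Subring ℂ), conj c ∈ (⊥ : Subring ℂ) := by
  intro c hc
  obtain ⟨k, rfl⟩ := Subring.mem_bot.1 hc
  rw [map_intCast]
  exact Subring.mem_bot.2 ⟨k, rfl⟩

/-- **The main construction.** -/
theorem main {C : (G : Type) → [Group G] → Prop} (hC : Cl C) {G : Type} [Group G] (hG : C G)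
    {v : ℝ} (hv : Val (⊥ : Subring ℂ) G v) (hz : ¬ ∃ z : ℤ, v = z) :
    ∃ (H : Type) (_ : Group H), C H ∧ ∃ (m n : ℕ) (A B : Matrix (Fin m) (Fin n) (H →₀ ℤ))
      (c β α : ℝ), 0 < β ∧ 0 < α ∧ α < 1 ∧ ∀ k : ℕ, kerDim (cx (A + k • B)) = c + β * α ^ k := by
  have hv0 := val_nonneg hv
  have hf1 : ((⌊v⌋₊ : ℕ) : ℝ) < v := by
    refine lt_of_le_of_ne (Nat.floor_le hv0) ?_
    intro h
    exact hz ⟨(⌊v⌋₊ : ℕ), by rw [← h]; simp⟩
  have hf2 : v < (⌊v⌋₊ : ℝ) + 1 := Nat.lt_floor_add_one v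
  obtain ⟨m, hρ⟩ := val_cut hv ⌊v⌋₊ hf1
  set ρ := v - (⌊v⌋₊ : ℝ) with hρd
  have h0 : 0 < ρ := by linarith
  have h1 : ρ < 1 := by linarith
  obtain ⟨m', ι, κ, _, _, A, T, hA, hT, hAT, hvA⟩ := lamp_exists hρ h1
  obtain ⟨κ', μ, _, _, P0, P1, c, hP0, hP1, hP⟩ :=
    pencil_exists conj_bot A T hA hT hAT (by rw [hvA]; exact h1)
  obtain ⟨a, b, X, Y, hXY⟩ := to_matrix P0 P1 hP0 hP1
  refine ⟨_, inferInstance, hC.hg (hC.free _ m' (hC.free _ m hG)), a, b, X, Y, c, (1 - ρ) ^ 2, ρ,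
    ?_, h0, h1, fun k => ?_⟩
  · have : 0 < 1 - ρ := by linarith
    positivity
  · rw [hXY, hP, hvA]

/-- a class in which the integral matrices have integral kernel dimensions is torsion-free -/
theorem tf_of_int {G : Type} [Group G]
    (h : ∀ v : ℝ, Val (⊥ : Subring ℂ) G v → ∃ z : ℤ, v = z) : IsLcm G 1 := by
  refine isLcm_of one_pos ?_ (fun e _ => one_dvd e)
  intro K hK
  obtain ⟨z, hz⟩ := h _ (val_subgroup K)
  have hc : 0 < Nat.card K := Nat.card_pos
  have hc' : (0 : ℝ) < Nat.card K := by exact_mod_cast hc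
  rw [div_eq_iff hc'.ne'] at hz
  have h2 : (1 : ℤ) = z * Nat.card K := by exact_mod_cast hz
  rw [Nat.dvd_one]
  have h3 : ((Nat.card K : ℕ) : ℤ) ∣ 1 := ⟨z, by rw [h2]; ring⟩
  have h4 := Int.natCast_dvd_natCast.1 (by simpa using h3 : ((Nat.card K : ℕ) : ℤ) ∣ ((1 : ℕ) : ℤ))
  exact Nat.dvd_one.1 h4

theorem int_all {C : (G : Type) → [Group G] → Prop} (hC : Cl C)
    (h : ∀ (G : Type) [Group G], C G → ∀ v : ℝ, Val (⊥ : Subring ℂ) G v → ∃ z : ℤ, v = z)
    (G : Type) [Group G] (hG : C G) {m n : ℕ} (A : Matrix (Fin m) (Fin n) (G →₀ ℂ)) :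
    ∃ z : ℤ, kerDim A = z := by
  have key : ∀ (H : Type) [Group H], C H → ∀ d : ℕ, IsLcm H d → ∀ v : ℝ,
      Val (⊥ : Subring ℂ) H v → ∃ z : ℤ, (d : ℝ) * v = z := by
    intro H _ hH d _ v hv
    obtain ⟨z, hz⟩ := h H hH v hv
    exact ⟨d * z, by rw [hz]; push_cast; ring⟩
  obtain ⟨z, hz⟩ := base_change C (fun G H _ _ => hC.prod G H)
    (fun G _ m hG => hC.free G m hG) ⊥ key ⊤ G hG 1 (tf_of_int (h G hG)) _
    (val_kerDim A (fun _ _ _ => Subring.mem_top _))
  rw [Nat.cast_one, one_mul] at hz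
  exact ⟨z, hz⟩

theorem kerDim_bounds {G : Type} [Group G] {m n : ℕ} (A : Matrix (Fin m) (Fin n) (G →₀ ℂ)) :
    0 ≤ kerDim A ∧ kerDim A ≤ m := by
  rw [kerDim_eq]
  refine ⟨vdim_nonneg _, ?_⟩
  have := vdim_le_card (kerA (cv A))
  rwa [Fintype.card_fin] at this

end Q23.FV
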